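import Pool.Agent.H33.Far.Inst

/-!
# A convex body with unique farthest points in a larger Hilbert space
-/

open Set Filter Topology

set_option linter.unusedSectionVars false

namespace FarPt

universe u v

/-- a coisometry together with its adjoint -/
structure Coiso (H : Type v) (E : Type u) [NormedAddCommGroup H] [InnerProductSpace ℝ H]
    [NormedAddCommGroup E] [InnerProductSpace ℝ E] where
  /-- the coisometry -/
  S : H →ₗ[ℝ] E
  /-- the isometry -/
  U : E →ₗ[ℝ] H
  SU : ∀ x, S (U x) = x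
  adj : ∀ h x, inner ℝ (S h) x = inner ℝ h (U x)

namespace Coiso

variable {H : Type v} {E : Type u} [NormedAddCommGroup H] [InnerProductSpace ℝ H]
  [NormedAddCommGroup E] [InnerProductSpace ℝ E] (W : Coiso H E)

/-- complementary projection -/
def Q (h : H) : H := h - W.U (W.S h)

lemma inner_eq (h k : H) :
    inner ℝ h k = inner ℝ (W.S h) (W.S k) + inner ℝ (W.Q h) (W.Q k) := by
  unfold Q
  rw [inner_sub_left, inner_sub_right, inner_sub_right]
  have h1 : inner ℝ h (W.U (W.S k)) = inner ℝ (W.S h) (W.S k) := (W.adj _ _).symm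
  have h2 : inner ℝ (W.U (W.S h)) k = inner ℝ (W.S h) (W.S k) := by
    rw [real_inner_comm, ← W.adj, real_inner_comm]
  have h3 : inner ℝ (W.U (W.S h)) (W.U (W.S k)) = inner ℝ (W.S h) (W.S k) := by
    rw [← W.adj, W.SU]
  rw [h1, h2, h3]
  ring

lemma norm_sq_eq (h : H) : ‖h‖ ^ 2 = ‖W.S h‖ ^ 2 + ‖W.Q h‖ ^ 2 := by
  have h1 := W.inner_eq h h
  rwa [real_inner_self_eq_norm_sq, real_inner_self_eq_norm_sq, real_inner_self_eq_norm_sq] at h1

lemma norm_S_sq_le (h : H) : ‖W.S h‖ ^ 2 ≤ ‖h‖ ^ 2 := by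
  have h1 := W.norm_sq_eq h
  have h2 := sq_nonneg ‖W.Q h‖
  linarith

lemma norm_S_le (h : H) : ‖W.S h‖ ≤ ‖h‖ := le_of_sq_le_sq (W.norm_S_sq_le h) (norm_nonneg _)

lemma S_continuous : Continuous W.S :=
  AddMonoidHomClass.continuous_of_bound W.S 1 (fun x => by rw [one_mul]; exact W.norm_S_le x)

lemma norm_U (x : E) : ‖W.U x‖ ^ 2 = ‖x‖ ^ 2 := by
  rw [← real_inner_self_eq_norm_sq, ← W.adj, W.SU, real_inner_self_eq_norm_sq]

lemma U_continuous : Continuous W.U :=
  AddMonoidHomClass.continuous_of_bound W.U 1 (fun x => by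
    rw [one_mul]; exact le_of_sq_le_sq (W.norm_U x).le (norm_nonneg _))

lemma Q_continuous : Continuous W.Q :=
  continuous_id.sub (W.U_continuous.comp W.S_continuous)

lemma Q_comb (h k : H) (t : ℝ) :
    W.Q ((1 - t) • h + t • k) = (1 - t) • W.Q h + t • W.Q k := by
  unfold Q
  simp only [map_add, map_smul, smul_sub]
  abel

lemma S_comb (h k : H) (t : ℝ) :
    W.S ((1 - t) • h + t • k) = (1 - t) • W.S h + t • W.S k := by
  simp only [map_add, map_smul]

/-- moving in the range of the isometry -/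
lemma S_move (q : H) (x : E) (s : ℝ) :
    W.S (q + s • W.U (x - W.S q)) = (1 - s) • W.S q + s • x := by
  rw [map_add, map_smul, W.SU, smul_sub, sub_smul, one_smul]
  abel

lemma Q_move (q : H) (x : E) : W.Q (q + W.U x) = W.Q q := by
  unfold Q
  rw [map_add, W.SU, map_add]
  abel

lemma Q_move' (q : H) (x : E) (s : ℝ) : W.Q (q + s • W.U (x - W.S q)) = W.Q q := by
  rw [← map_smul]
  exact W.Q_move q _

lemma eq_of (h k : H) (h1 : W.S h = W.S k) (h2 : W.Q h = W.Q k) : h = k := by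
  unfold Q at h2
  rw [h1] at h2
  exact sub_left_inj.mp h2

end Coiso

section body

variable {I X E : Type u} [LinearOrder I] [WellFoundedLT I] [NormedAddCommGroup E]
  [InnerProductSpace ℝ E] {K : CoordSys (I × X) E} {pt : X → E} {lab : E → X}
  {H : Type v} [NormedAddCommGroup H] [InnerProductSpace ℝ H] {W : Coiso H E}

lemma Bf_continuousOn' : ContinuousOn (Bf K pt lab) (Metric.ball (0 : E) (3 / 2)) := by
  have h1 := (Bf_convexOn (K := K) (pt := pt) (lab := lab)).lipschitzOnWith_of_abs_le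
    (ε := 1 / 2) (M := 3) (by norm_num) (by
      intro a ha
      rw [dist_zero_right] at ha
      have h2 := Bf_lb (K := K) (pt := pt) (lab := lab) ha
      have h3 := Bf_ub (K := K) (pt := pt) (lab := lab) ha
      have h4 := sq_lt_four ha
      rw [abs_le]
      constructor <;> linarith)
  refine h1.continuousOn.mono ?_
  intro x hx
  rw [mem_ball_zero_iff] at hx
  rw [mem_ball_zero_iff]
  linarith

variable (K pt lab W) in
/-- the convex function on the larger space -/
noncomputable def BW (h : H) : ℝ := Bf K pt lab (W.S h) + ‖W.Q h‖ ^ 2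

variable (K pt lab W) in
/-- the convex body -/
def body : Set H := {h | ‖W.S h‖ < 2 ∧ BW K pt lab W h + ‖h‖ ^ 2 ≤ 0}

lemma BW_comb {h k : H} (hh : ‖W.S h‖ < 2) (hk : ‖W.S k‖ < 2) {t : ℝ} (h0 : 0 ≤ t)
    (h1 : t ≤ 1) : BW K pt lab W ((1 - t) • h + t • k) + t * (1 - t) * ‖W.Q h - W.Q k‖ ^ 2 +
      gp (Bf K pt lab) t (W.S h) (W.S k) =
      (1 - t) * BW K pt lab W h + t * BW K pt lab W k := by
  unfold BW gp
  rw [W.S_comb, W.Q_comb, norm_sq_comb]
  ring

lemma BW_le {h k : H} (hh : ‖W.S h‖ < 2) (hk : ‖W.S k‖ < 2) {t : ℝ} (h0 : 0 ≤ t)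
    (h1 : t ≤ 1) : BW K pt lab W ((1 - t) • h + t • k) ≤
      (1 - t) * BW K pt lab W h + t * BW K pt lab W k := by
  have h2 := BW_comb (K := K) (pt := pt) (lab := lab) hh hk h0 h1
  have h3 := Bf_cvx (K := K) (pt := pt) (lab := lab) _ _ hh hk t h0 h1
  have h4 : 0 ≤ t * (1 - t) * ‖W.Q h - W.Q k‖ ^ 2 :=
    mul_nonneg (mul_nonneg h0 (by linarith)) (sq_nonneg _)
  linarith

lemma body_norm {h : H} (hh : h ∈ body K pt lab W) : ‖h‖ ≤ 1 := by
  have h1 := Bf_lb (K := K) (pt := pt) (lab := lab) hh.1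
  have h2 := hh.2
  unfold BW at h2
  have h3 := sq_nonneg ‖W.Q h‖
  have h4 : ‖h‖ ^ 2 ≤ 1 ^ 2 := by linarith
  exact le_of_sq_le_sq h4 (by norm_num)

lemma body_small {h : H} (hh : ‖h‖ ^ 2 ≤ 1 / 2) : h ∈ body K pt lab W := by
  have h0 : ‖h‖ < 2 := norm_lt_of_sq (by norm_num) (by linarith)
  have h1 : ‖W.S h‖ < 2 := (W.norm_S_le h).trans_lt h0
  refine ⟨h1, ?_⟩
  have h2 := Bf_ub (K := K) (pt := pt) (lab := lab) h1
  have h3 := W.norm_sq_eq h
  unfold BW
  linarith

lemma body_comb {h k : H} (hh : h ∈ body K pt lab W) (hk : k ∈ body K pt lab W) {t : ℝ}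
    (h0 : 0 ≤ t) (h1 : t ≤ 1) : ‖W.S ((1 - t) • h + t • k)‖ < 2 ∧
      BW K pt lab W ((1 - t) • h + t • k) + ‖(1 - t) • h + t • k‖ ^ 2 ≤
        - (t * (1 - t) * ‖h - k‖ ^ 2) := by
  refine ⟨?_, ?_⟩
  · rw [W.S_comb]
    exact norm_comb_lt hh.1 hk.1 h0 h1
  · have h2 := BW_le (K := K) (pt := pt) (lab := lab) hh.1 hk.1 h0 h1
    rw [norm_sq_comb]
    have h5 := mul_le_mul_of_nonneg_left hh.2 (by linarith : (0 : ℝ) ≤ 1 - t)
    have h6 := mul_le_mul_of_nonneg_left hk.2 h0
    rw [mul_zero] at h5 h6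
    linarith

lemma body_convex : Convex ℝ (body K pt lab W) := by
  intro x hx y hy a b ha hb hab
  have h2 : a = 1 - b := by linarith
  subst h2
  have h3 := body_comb hx hy hb (by linarith)
  have h4 : 0 ≤ b * (1 - b) * ‖x - y‖ ^ 2 := mul_nonneg (mul_nonneg hb ha) (sq_nonneg _)
  exact ⟨h3.1, by linarith [h3.2]⟩

lemma BW_continuousOn :
    ContinuousOn (fun h => BW K pt lab W h + ‖h‖ ^ 2) {h | ‖W.S h‖ < 3 / 2} := by
  unfold BW
  apply ContinuousOn.add
  · apply ContinuousOn.add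
    · apply Bf_continuousOn'.comp W.S_continuous.continuousOn
      intro h hh
      rw [mem_ball_zero_iff]
      exact hh
    · exact (W.Q_continuous.norm.pow 2).continuousOn
  · fun_prop

lemma open_S : IsOpen {h : H | ‖W.S h‖ < 3 / 2} :=
  isOpen_lt W.S_continuous.norm continuous_const

lemma body_eq : body K pt lab W =
    Metric.closedBall (0 : H) 1 ∩ (fun h => BW K pt lab W h + ‖h‖ ^ 2) ⁻¹' (Iic 0) := by
  ext x
  constructor
  · intro hx
    exact ⟨by rw [mem_closedBall_zero_iff]; exact body_norm hx, hx.2⟩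
  · rintro ⟨h1, h2⟩
    rw [mem_closedBall_zero_iff] at h1
    have := W.norm_S_le x
    exact ⟨by linarith, h2⟩

lemma ball_sub : Metric.closedBall (0 : H) 1 ⊆ {h : H | ‖W.S h‖ < 3 / 2} := by
  intro x hx
  rw [mem_closedBall_zero_iff] at hx
  have := W.norm_S_le x
  show ‖W.S x‖ < 3 / 2
  linarith

lemma body_closed : IsClosed (body K pt lab W) := by
  rw [body_eq]
  apply ContinuousOn.preimage_isClosed_of_isClosed _ Metric.isClosed_closedBall isClosed_Iic
  exact BW_continuousOn.mono ball_sub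

lemma body_strict : StrictConvex ℝ (body K pt lab W) := by
  intro x hx y hy hxy a b ha hb hab
  have h2 : a = 1 - b := by linarith
  subst h2
  have h3 := body_comb hx hy hb.le (by linarith)
  set z : H := (1 - b) • x + b • y with hz
  have hpos : 0 < ‖x - y‖ := norm_pos_iff.mpr (sub_ne_zero.mpr hxy)
  have h4 : 0 < b * (1 - b) * ‖x - y‖ ^ 2 := by positivity
  have hzb : z ∈ body K pt lab W := ⟨h3.1, by linarith [h3.2]⟩
  have hzn : ‖W.S z‖ < 3 / 2 := by
    have := body_norm hzb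
    have := W.norm_S_le z
    linarith
  rw [mem_interior]
  refine ⟨{h | ‖W.S h‖ < 3 / 2} ∩ (fun h => BW K pt lab W h + ‖h‖ ^ 2) ⁻¹' (Iio 0), ?_, ?_, ?_⟩
  · rintro h ⟨h5, h6⟩
    have h5' : ‖W.S h‖ < 3 / 2 := h5
    exact ⟨by linarith, le_of_lt h6⟩
  · exact BW_continuousOn.isOpen_inter_preimage open_S isOpen_Iio
  · refine ⟨hzn, ?_⟩
    show BW K pt lab W z + ‖z‖ ^ 2 < 0
    linarith [h3.2]

lemma flat_eq {x x' : E} (hx : ‖x‖ < 2) (hx' : ‖x'‖ < 2) (hfl : Flat (Bf K pt lab) x x')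
    (h : Bf K pt lab x + ‖x‖ ^ 2 = Bf K pt lab x' + ‖x'‖ ^ 2) : x = x' := by
  by_contra hne
  have hPS : ∀ x : E, PS K (univ : Set I) x = x := by
    intro x
    apply K.ext
    intro γ
    exact K.c_R_mem _ _ _ (mem_univ _)
  obtain ⟨j, _, b, hb, s, t, hs, ht, h1, h2⟩ :=
    ok_univ.flat x x' (hPS x) (hPS x') hx hx' hne hfl
  have hn1 := norm_sq_line hb s
  have hn2 := norm_sq_line hb t
  rw [← h1] at hn1
  rw [← h2] at hn2
  have hv1 := Bf_line hb s (by rw [← h1]; exact hx)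
  have hv2 := Bf_line hb t (by rw [← h2]; exact hx')
  rw [max_eq_right (by linarith), zero_pow two_ne_zero, zero_div, add_zero, ← h1] at hv1
  rw [max_eq_right (by linarith), zero_pow two_ne_zero, zero_div, add_zero, ← h2] at hv2
  have hst : s ^ 2 = t ^ 2 := by
    rw [hv1, hn1, hv2, hn2] at h
    linarith
  have hst' : s = t := by
    have := abs_eq_abs.mpr (sq_eq_sq_iff_eq_or_eq_neg.mp hst)
    rwa [abs_of_nonneg hs, abs_of_nonneg ht] at this
  apply hne
  rw [h1, h2, hst']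

lemma body_unique {y a a' : H} {m : ℝ}
    (hm : ∀ x ∈ body K pt lab W, m ≤ BW K pt lab W x + 2 * inner ℝ y x)
    (ha : a ∈ body K pt lab W) (ha' : a' ∈ body K pt lab W)
    (har : BW K pt lab W a + ‖a‖ ^ 2 = 0) (har' : BW K pt lab W a' + ‖a'‖ ^ 2 = 0)
    (ham : BW K pt lab W a + 2 * inner ℝ y a = m)
    (ham' : BW K pt lab W a' + 2 * inner ℝ y a' = m) : a = a' := by
  have key : ∀ t : ℝ, 0 ≤ t → t ≤ 1 →
      t * (1 - t) * ‖W.Q a - W.Q a'‖ ^ 2 + gp (Bf K pt lab) t (W.S a) (W.S a') ≤ 0 := by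
    intro t h0 h1
    have h2 := BW_comb (K := K) (pt := pt) (lab := lab) ha.1 ha'.1 h0 h1
    have h3 : (1 - t) • a + t • a' ∈ body K pt lab W :=
      body_convex ha ha' (by linarith) h0 (by ring)
    have h4 := hm _ h3
    rw [inner_add_right, inner_smul_right, inner_smul_right] at h4
    have h5 : (1 - t) * (BW K pt lab W a + 2 * inner ℝ y a) +
        t * (BW K pt lab W a' + 2 * inner ℝ y a') = m := by rw [ham, ham']; ring
    linarith
  have hcv : ∀ t : ℝ, 0 ≤ t → t ≤ 1 → 0 ≤ gp (Bf K pt lab) t (W.S a) (W.S a') :=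
    fun t h0 h1 => Bf_cvx _ _ ha.1 ha'.1 t h0 h1
  have hQ : W.Q a = W.Q a' := by
    have h1 := key (1 / 2) (by norm_num) (by norm_num)
    have h2 := hcv (1 / 2) (by norm_num) (by norm_num)
    have h3 : ‖W.Q a - W.Q a'‖ ^ 2 = 0 := by
      have := sq_nonneg ‖W.Q a - W.Q a'‖
      linarith
    have h4 : ‖W.Q a - W.Q a'‖ = 0 := (pow_eq_zero_iff (n := 2) (by norm_num)).mp h3
    exact sub_eq_zero.mp (norm_eq_zero.mp h4)
  have hfl : Flat (Bf K pt lab) (W.S a) (W.S a') := by
    intro t h0 h1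
    have h2 := key t h0 h1
    have h3 : 0 ≤ t * (1 - t) * ‖W.Q a - W.Q a'‖ ^ 2 :=
      mul_nonneg (mul_nonneg h0 (by linarith)) (sq_nonneg _)
    exact le_antisymm (by linarith) (hcv t h0 h1)
  have hS : W.S a = W.S a' := by
    apply flat_eq ha.1 ha'.1 hfl
    have h1 := W.norm_sq_eq a
    have h2 := W.norm_sq_eq a'
    unfold BW at har har'
    rw [hQ] at h1 har
    linarith
  exact W.eq_of _ _ hS hQ

/-- existence of a minimiser on the boundary -/
lemma body_exists [CompleteSpace E] [CompleteSpace H] (hpt : ∀ q, pt (lab q) = q) {j : I}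
    {y : H} (hy : P K j (W.S y) = W.S y) :
    ∃ m : ℝ, (∀ x ∈ body K pt lab W, m ≤ BW K pt lab W x + 2 * inner ℝ y x) ∧
      ∃ a ∈ body K pt lab W, BW K pt lab W a + ‖a‖ ^ 2 = 0 ∧
        BW K pt lab W a + 2 * inner ℝ y a = m := by
  set J : H → ℝ := fun x => BW K pt lab W x + 2 * inner ℝ y x with hJ
  have hJcont : ContinuousOn J (Metric.closedBall (0 : H) 1) := by
    have h1 : J = fun x => (BW K pt lab W x + ‖x‖ ^ 2) + (2 * inner ℝ y x - ‖x‖ ^ 2) := by
      funext x
      simp only [hJ]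
      ring
    rw [h1]
    exact (BW_continuousOn.mono ball_sub).add (by fun_prop)
  obtain ⟨q, hqb, hqmin⟩ : ∃ q ∈ body K pt lab W, ∀ x ∈ body K pt lab W, J q ≤ J x := by
    apply exists_min
    · exact ⟨0, body_small (by simp)⟩
    · intro x hx
      exact body_norm hx
    · intro c
      have : {x | x ∈ body K pt lab W ∧ J x ≤ c} = body K pt lab W ∩ J ⁻¹' (Iic c) := rfl
      rw [this]
      apply (hJcont.mono ?_).preimage_isClosed_of_isClosed body_closed isClosed_Iic
      intro x hx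
      rw [mem_closedBall_zero_iff]
      exact body_norm hx
    · intro c u hu v hv a b ha hb hab
      refine ⟨body_convex hu.1 hv.1 ha hb hab, ?_⟩
      have h2 : a = 1 - b := by linarith
      subst h2
      have h1 := BW_le (K := K) (pt := pt) (lab := lab) hu.1.1 hv.1.1 hb (by linarith)
      have h5 := mul_le_mul_of_nonneg_left hu.2 ha
      have h6 := mul_le_mul_of_nonneg_left hv.2 hb
      show BW K pt lab W ((1 - b) • u + b • v) + 2 * inner ℝ y ((1 - b) • u + b • v) ≤ c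
      rw [inner_add_right, inner_smul_right, inner_smul_right]
      simp only [hJ] at h5 h6
      linarith
    · refine ⟨-1 - 2 * ‖y‖, ?_⟩
      rintro _ ⟨x, hx, rfl⟩
      have h1 := Bf_lb (K := K) (pt := pt) (lab := lab) hx.1
      have h2 := body_norm hx
      have h3 := abs_real_inner_le_norm y x
      have h4 := neg_abs_le (inner ℝ y x)
      have h5 : ‖y‖ * ‖x‖ ≤ ‖y‖ := mul_le_of_le_one_right (norm_nonneg _) h2
      have h6 := sq_nonneg ‖W.Q x‖
      show -1 - 2 * ‖y‖ ≤ BW K pt lab W x + 2 * inner ℝ y x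
      unfold BW
      linarith
  refine ⟨J q, hqmin, ?_⟩
  rcases eq_or_lt_of_le hqb.2 with hzero | hneg
  · exact ⟨q, hqb, hzero, rfl⟩
  -- the minimiser lies in the interior
  set x : E := W.S q with hx
  set N : ℝ := ‖W.Q q‖ ^ 2 with hN
  have hN0 : 0 ≤ N := sq_nonneg _
  have hx2 : ‖x‖ < 2 := hqb.1
  have hFneg : Bf K pt lab x + ‖x‖ ^ 2 + 2 * N < 0 := by
    have h1 := hneg
    rw [W.norm_sq_eq q] at h1
    unfold BW at h1
    linarith
  have hxD : x ∈ Dset K pt lab := ⟨hx2, by linarith⟩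
  have hJS : ∀ (x' : E) (s : ℝ), J (q + s • W.U (x' - x)) =
      (Bf K pt lab ((1 - s) • x + s • x') + 2 * inner ℝ (W.S y) ((1 - s) • x + s • x')) +
        (N + 2 * inner ℝ (W.Q y) (W.Q q)) := by
    intro x' s
    simp only [hJ]
    unfold BW
    rw [W.inner_eq y, hx, W.S_move, W.Q_move']
    ring
  have hJq : J q = (Bf K pt lab x + 2 * inner ℝ (W.S y) x) +
      (N + 2 * inner ℝ (W.Q y) (W.Q q)) := by
    simp only [hJ]
    unfold BW
    rw [W.inner_eq y]
    ring
  have hBn : ∀ (x' : E) (s : ℝ), BW K pt lab W (q + s • W.U (x' - x)) +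
      ‖q + s • W.U (x' - x)‖ ^ 2 =
      Bf K pt lab ((1 - s) • x + s • x') + ‖(1 - s) • x + s • x'‖ ^ 2 + 2 * N := by
    intro x' s
    unfold BW
    rw [W.norm_sq_eq (q + s • W.U (x' - x)), hx, W.S_move, W.Q_move']
    ring
  have hSn : ∀ (x' : E) (s : ℝ), W.S (q + s • W.U (x' - x)) = (1 - s) • x + s • x' := by
    intro x' s
    rw [hx, W.S_move]
  -- `x` minimises on the small set
  have hxmin : ∀ x' ∈ Dset K pt lab, Bf K pt lab x + 2 * inner ℝ (W.S y) x ≤
      Bf K pt lab x' + 2 * inner ℝ (W.S y) x' := by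
    intro x' hx'
    set s : ℝ := -(Bf K pt lab x + ‖x‖ ^ 2 + 2 * N) with hs
    have hs0 : 0 < s := by linarith
    have hlb := Bf_lb (K := K) (pt := pt) (lab := lab) hx2
    have hs1 : s ≤ 1 := by
      have := sq_nonneg ‖x‖
      linarith
    have hcv := Bf_cvx (K := K) (pt := pt) (lab := lab) x x' hx2 hx'.1 s hs0.le hs1
    unfold gp at hcv
    have hmem : q + s • W.U (x' - x) ∈ body K pt lab W := by
      refine ⟨?_, ?_⟩
      · rw [hSn]
        exact norm_comb_lt hx2 hx'.1 hs0.le hs1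
      · rw [hBn, norm_sq_comb]
        have h5 := mul_le_mul_of_nonneg_left hx'.2 hs0.le
        rw [mul_zero] at h5
        have h6 : 0 ≤ s * (1 - s) * ‖x - x'‖ ^ 2 :=
          mul_nonneg (mul_nonneg hs0.le (by linarith)) (sq_nonneg _)
        have h7 : Bf K pt lab x + ‖x‖ ^ 2 = -s - 2 * N := by linarith
        have h8 : (1 - s) * (Bf K pt lab x + ‖x‖ ^ 2) = -(s * (1 - s)) - 2 * N + 2 * N * s := by
          rw [h7]; ring
        have h9 : s ≤ 1 - 2 * N := by
          have := sq_nonneg ‖x‖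
          linarith
        have h10 : 2 * N * s ≤ s * (1 - s) := by nlinarith
        linarith
    have h1 := hqmin _ hmem
    rw [hJS, hJq, inner_add_right, inner_smul_right, inner_smul_right] at h1
    have h2 : s * (Bf K pt lab x + 2 * inner ℝ (W.S y) x) ≤
        s * (Bf K pt lab x' + 2 * inner ℝ (W.S y) x') := by linarith
    exact le_of_mul_le_mul_left h2 hs0
  obtain ⟨m, hm, a, ha, har, ham⟩ := exists_real (K := K) (pt := pt) (lab := lab) hpt hy
  have hxm : Bf K pt lab x + 2 * inner ℝ (W.S y) x = m :=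
    le_antisymm ((hxmin a ha).trans ham.le) (hm x hxD)
  -- intermediate value
  have hcomb : ∀ s : ℝ, 0 ≤ s → s ≤ 1 → (1 - s) • x + s • a ∈ Dset K pt lab := fun s h0 h1 =>
    Dset_convex hxD ha (by linarith) h0 (by ring)
  have hφ : ContinuousOn (fun s : ℝ => Bf K pt lab ((1 - s) • x + s • a) +
      ‖(1 - s) • x + s • a‖ ^ 2 + 2 * N) (Icc 0 1) := by
    apply ContinuousOn.add
    · apply ContinuousOn.add
      · apply Bf_continuousOn.comp
        · fun_prop
        · intro s hs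
          rw [mem_closedBall_zero_iff]
          exact norm_le_one_of_mem (hcomb s hs.1 hs.2)
      · fun_prop
    · exact continuousOn_const
  have hiv := intermediate_value_Icc (zero_le_one (α := ℝ)) hφ
  have hmem0 : (0 : ℝ) ∈ Icc ((fun s : ℝ => Bf K pt lab ((1 - s) • x + s • a) +
      ‖(1 - s) • x + s • a‖ ^ 2 + 2 * N) 0) ((fun s : ℝ => Bf K pt lab ((1 - s) • x + s • a) +
      ‖(1 - s) • x + s • a‖ ^ 2 + 2 * N) 1) := by
    constructor
    · simp only [sub_zero, one_smul, zero_smul, add_zero]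
      exact hFneg.le
    · simp only [sub_self, one_smul, zero_smul, zero_add]
      linarith
  obtain ⟨s, hs, hs0⟩ := hiv hmem0
  simp only at hs0
  refine ⟨q + s • W.U (a - x), ⟨?_, ?_⟩, ?_, ?_⟩
  · rw [hSn]
    exact (hcomb s hs.1 hs.2).1
  · rw [hBn, hs0]
  · rw [hBn, hs0]
  · show J (q + s • W.U (a - x)) = J q
    rw [hJS, hJq, hxm]
    have h1 := hm _ (hcomb s hs.1 hs.2)
    have h2 := Bf_cvx (K := K) (pt := pt) (lab := lab) x a hx2 ha.1 s hs.1 hs.2
    unfold gp at h2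
    have h3 : (1 - s) * (Bf K pt lab x + 2 * inner ℝ (W.S y) x) +
        s * (Bf K pt lab a + 2 * inner ℝ (W.S y) a) = m := by rw [hxm, ham]; ring
    rw [inner_add_right, inner_smul_right, inner_smul_right] at h1 ⊢
    linarith

/-- every point has exactly one farthest point in the body -/
theorem body_farthest [CompleteSpace E] [CompleteSpace H] [Nonempty I]
    (hpt : ∀ q, pt (lab q) = q) (hcof : ∀ S : Set I, S.Countable → ∃ j, ∀ i ∈ S, i < j) (y : H) :
    ∃! a : H, a ∈ body K pt lab W ∧ ∀ b ∈ body K pt lab W, dist y b ≤ dist y a := by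
  -- level of `y`
  have hcount : (((fun γ : I × X => γ.1) ''
      (Function.support fun γ => (K.c γ (W.S y)) ^ 2))).Countable :=
    (K.summable_sq (W.S y)).countable_support.image _
  obtain ⟨j, hj⟩ := hcof _ hcount
  have hy : P K j (W.S y) = W.S y := by
    rw [show P K j = K.R {γ | γ.1 < j} from rfl, K.R_eq_self_iff]
    intro γ hγ
    by_contra hne
    exact hγ (hj γ.1 ⟨γ, by simpa [Function.mem_support] using hne, rfl⟩)
  obtain ⟨m, hm, a, ha, har, ham⟩ := body_exists (K := K) (pt := pt) (lab := lab) hpt hy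
  have hdist : ∀ x : H, dist y x ^ 2 = ‖y‖ ^ 2 - 2 * inner ℝ y x + ‖x‖ ^ 2 := by
    intro x
    rw [dist_eq_norm, norm_sub_sq_real]
  have hle : ∀ x ∈ body K pt lab W, dist y x ^ 2 ≤ ‖y‖ ^ 2 - m := by
    intro x hx
    rw [hdist]
    have h1 := hm x hx
    have h2 := hx.2
    linarith
  have haeq : dist y a ^ 2 = ‖y‖ ^ 2 - m := by
    rw [hdist]; linarith
  refine ⟨a, ⟨ha, ?_⟩, ?_⟩
  · intro b hb
    have h1 := hle b hb
    rw [← haeq] at h1
    exact le_of_sq_le_sq h1 dist_nonneg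
  · rintro a' ⟨ha', hmax⟩
    have h1 : dist y a ≤ dist y a' := hmax a ha
    have h2 : dist y a ^ 2 ≤ dist y a' ^ 2 := pow_le_pow_left₀ dist_nonneg h1 2
    have h3 := hle a' ha'
    have h4 : dist y a' ^ 2 = ‖y‖ ^ 2 - m := by linarith
    rw [hdist] at h4
    have h5 := hm a' ha'
    have h6 := ha'.2
    exact body_unique hm ha' ha (by linarith) har (by linarith) ham

end body

end FarPt
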