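import Pool.Agent.H33.FarB.Body

/-!
# Inversion of a convex body with unique farthest points
-/

open Set Filter Topology

namespace FarPt

universe v

variable {H : Type v} [NormedAddCommGroup H] [InnerProductSpace ℝ H]

/-- inversion in the unit sphere -/
noncomputable def inv (z : H) : H := (‖z‖ ^ 2)⁻¹ • z

/-- the inverted set -/
def invSet (A : Set H) : Set H := {z | z ≠ 0 ∧ inv z ∈ A}

lemma norm_inv (z : H) : ‖inv z‖ = ‖z‖⁻¹ := by
  unfold inv
  rw [norm_smul, _root_.norm_inv, Real.norm_eq_abs, abs_of_nonneg (sq_nonneg _)]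
  by_cases h : ‖z‖ = 0
  · rw [h]; simp
  · field_simp

lemma inv_ne_zero {z : H} (h : z ≠ 0) : inv z ≠ 0 := by
  have h1 : ‖z‖ ≠ 0 := norm_ne_zero_iff.mpr h
  rw [← norm_ne_zero_iff, norm_inv]
  exact _root_.inv_ne_zero h1

lemma inv_inv {z : H} (h : z ≠ 0) : inv (inv z) = z := by
  have h1 : ‖z‖ ≠ 0 := norm_ne_zero_iff.mpr h
  have h2 : ‖inv z‖ = ‖z‖⁻¹ := norm_inv z
  unfold inv at h2 ⊢
  rw [h2, smul_smul]
  have : ((‖z‖⁻¹) ^ 2)⁻¹ * (‖z‖ ^ 2)⁻¹ = 1 := by field_simp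
  rw [this, one_smul]

/-- the basic identity -/
lemma inv_identity {z : H} (h : z ≠ 0) (y : H) (d : ℝ) :
    dist y z ^ 2 - d ^ 2 = ‖z‖ ^ 2 *
      (1 - 2 * inner ℝ (inv z) y + (‖y‖ ^ 2 - d ^ 2) * ‖inv z‖ ^ 2) := by
  have h1 : ‖z‖ ≠ 0 := norm_ne_zero_iff.mpr h
  rw [norm_inv, dist_eq_norm, norm_sub_sq_real, inv, inner_smul_left, real_inner_comm z y]
  simp only [conj_trivial]
  field_simp
  ring

/-- unique minimisers of the functions `1 - 2⟨x, y⟩ + κ ‖x‖²` -/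
lemma unique_min [CompleteSpace H] {A : Set H} (hcl : IsClosed A) (hst : StrictConvex ℝ A)
    (hne : A.Nonempty) (hbd : ∀ x ∈ A, ‖x‖ ≤ 1)
    (hfar : ∀ y : H, ∃! a : H, a ∈ A ∧ ∀ b ∈ A, dist y b ≤ dist y a) (y : H) (κ : ℝ)
    (hyκ : κ ≠ 0 ∨ y ≠ 0) :
    ∃ x₀ ∈ A, (∀ x ∈ A, 1 - 2 * inner ℝ x₀ y + κ * ‖x₀‖ ^ 2 ≤
      1 - 2 * inner ℝ x y + κ * ‖x‖ ^ 2) ∧
      ∀ x₁ ∈ A, 1 - 2 * inner ℝ x₁ y + κ * ‖x₁‖ ^ 2 ≤ 1 - 2 * inner ℝ x₀ y + κ * ‖x₀‖ ^ 2 →
        x₁ = x₀ := by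
  have hcv : Convex ℝ A := hst.convex
  rcases lt_or_ge κ 0 with hκ | hκ
  · -- farthest points
    obtain ⟨a, ⟨haA, hamax⟩, hauniq⟩ := hfar (κ⁻¹ • y)
    have hform : ∀ x : H, 1 - 2 * inner ℝ x y + κ * ‖x‖ ^ 2 =
        κ * dist (κ⁻¹ • y) x ^ 2 + (1 - κ⁻¹ * ‖y‖ ^ 2) := by
      intro x
      rw [dist_eq_norm, norm_sub_sq_real, norm_smul, inner_smul_left, mul_pow, Real.norm_eq_abs,
        sq_abs, real_inner_comm y x]
      simp only [conj_trivial]
      have := hκ.ne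
      field_simp
      ring
    refine ⟨a, haA, ?_, ?_⟩
    · intro x hx
      rw [hform, hform]
      have h1 := pow_le_pow_left₀ dist_nonneg (hamax x hx) 2
      have h2 := mul_le_mul_of_nonpos_left h1 hκ.le
      linarith
    · intro x₁ hx₁ hle
      rw [hform, hform] at hle
      apply hauniq
      refine ⟨hx₁, ?_⟩
      have h1 : dist (κ⁻¹ • y) a ^ 2 ≤ dist (κ⁻¹ • y) x₁ ^ 2 := by
        by_contra hcon
        push Not at hcon
        have := mul_lt_mul_of_neg_left hcon hκ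
        linarith
      have h2 : dist (κ⁻¹ • y) a ≤ dist (κ⁻¹ • y) x₁ := le_of_sq_le_sq h1 dist_nonneg
      intro b hb
      exact (hamax b hb).trans h2
  · set g : H → ℝ := fun x => 1 - 2 * inner ℝ x y + κ * ‖x‖ ^ 2 with hg
    have hgc : Continuous g := by fun_prop
    have hgcomb : ∀ (u v : H) (t : ℝ), g ((1 - t) • u + t • v) =
        (1 - t) * g u + t * g v - κ * (t * (1 - t) * ‖u - v‖ ^ 2) := by
      intro u v t
      simp only [hg]
      rw [norm_sq_comb, inner_add_left, inner_smul_left, inner_smul_left]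
      simp only [conj_trivial]
      ring
    obtain ⟨x₀, hx₀, hmin⟩ : ∃ q ∈ A, ∀ x ∈ A, g q ≤ g x := by
      apply exists_min hne hbd
      · intro c
        have : {x | x ∈ A ∧ g x ≤ c} = A ∩ g ⁻¹' (Iic c) := rfl
        rw [this]
        exact hcl.inter (isClosed_Iic.preimage hgc)
      · intro c u hu v hv a b ha hb hab
        refine ⟨hcv hu.1 hv.1 ha hb hab, ?_⟩
        have h2 : a = 1 - b := by linarith
        subst h2
        show g _ ≤ c
        rw [hgcomb]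
        have h5 := mul_le_mul_of_nonneg_left hu.2 ha
        have h6 := mul_le_mul_of_nonneg_left hv.2 hb
        have h7 : 0 ≤ κ * (b * (1 - b) * ‖u - v‖ ^ 2) :=
          mul_nonneg hκ (mul_nonneg (mul_nonneg hb ha) (sq_nonneg _))
        linarith
      · refine ⟨1 - 2 * ‖y‖, ?_⟩
        rintro _ ⟨x, hx, rfl⟩
        have h2 := hbd x hx
        have h3 := abs_real_inner_le_norm x y
        have h4 := le_abs_self (inner ℝ x y)
        have h5 : ‖x‖ * ‖y‖ ≤ ‖y‖ := mul_le_of_le_one_left (norm_nonneg _) h2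
        have h6 : 0 ≤ κ * ‖x‖ ^ 2 := mul_nonneg hκ (sq_nonneg _)
        show 1 - 2 * ‖y‖ ≤ 1 - 2 * inner ℝ x y + κ * ‖x‖ ^ 2
        linarith
    refine ⟨x₀, hx₀, hmin, ?_⟩
    intro x₁ hx₁ hle
    have hle' : g x₁ ≤ g x₀ := hle
    have heq : g x₁ = g x₀ := le_antisymm hle' (hmin x₁ hx₁)
    by_contra hne'
    have hpos : 0 < ‖x₀ - x₁‖ := norm_pos_iff.mpr (sub_ne_zero.mpr (Ne.symm hne'))
    have hmid := hst hx₀ hx₁ (Ne.symm hne') (by norm_num : (0 : ℝ) < 1 - 1 / 2)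
      (by norm_num : (0 : ℝ) < 1 / 2) (by norm_num)
    have hmidA := interior_subset hmid
    have h1 := hgcomb x₀ x₁ (1 / 2)
    have h2 := hmin _ hmidA
    rcases eq_or_lt_of_le hκ with hκ0 | hκpos
    · -- linear functional
      have hy : y ≠ 0 := by
        rcases hyκ with h | h
        · exact absurd hκ0.symm h
        · exact h
      have hyn : 0 < ‖y‖ ^ 2 := by
        have := norm_pos_iff.mpr hy
        positivity
      have hcont : Continuous (fun s : ℝ => ((1 - 1 / 2 : ℝ) • x₀ + (1 / 2 : ℝ) • x₁) + s • y) := by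
        fun_prop
      have hnhds : ∀ᶠ s : ℝ in 𝓝 0,
          ((1 - 1 / 2 : ℝ) • x₀ + (1 / 2 : ℝ) • x₁) + s • y ∈ interior A := by
        apply hcont.continuousAt.eventually_mem
        apply isOpen_interior.mem_nhds
        rw [zero_smul, add_zero]
        exact hmid
      obtain ⟨ε, hε, hball⟩ := Metric.eventually_nhds_iff.mp hnhds
      have h3 := interior_subset (hball (y := ε / 2) (by
        rw [Real.dist_eq, sub_zero, abs_of_pos (by linarith)]
        linarith))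
      have h4 := hmin _ h3
      have h5 : g (((1 - 1 / 2 : ℝ) • x₀ + (1 / 2 : ℝ) • x₁) + (ε / 2) • y) =
          g ((1 - 1 / 2 : ℝ) • x₀ + (1 / 2 : ℝ) • x₁) - ε * ‖y‖ ^ 2 := by
        simp only [hg]
        rw [← hκ0, inner_add_left, inner_smul_left y y, real_inner_self_eq_norm_sq]
        simp only [conj_trivial]
        ring
      rw [h5, h1, heq, ← hκ0] at h4
      have h6 := mul_pos hε hyn
      linarith
    · rw [h1, heq] at h2
      have h3 : 0 < κ * (1 / 2 * (1 - 1 / 2) * ‖x₀ - x₁‖ ^ 2) := by positivity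
      linarith

/-- the inverted set is a Chebyshev set -/
theorem invSet_chebyshev [CompleteSpace H] {A : Set H} (hcl : IsClosed A)
    (hst : StrictConvex ℝ A) (hbd : ∀ x ∈ A, ‖x‖ ≤ 1) (hsm : ∀ x : H, ‖x‖ ^ 2 ≤ 1 / 2 → x ∈ A)
    (hfar : ∀ y : H, ∃! a : H, a ∈ A ∧ ∀ b ∈ A, dist y b ≤ dist y a) {e : H} (he : e ≠ 0)
    (y : H) : ∃! g : H, g ∈ invSet A ∧ ∀ h ∈ invSet A, dist y g ≤ dist y h := by
  have hGnorm : ∀ z ∈ invSet A, 1 ≤ ‖z‖ := by
    rintro z ⟨hz, hzA⟩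
    have h1 := hbd _ hzA
    rw [norm_inv] at h1
    have h2 : 0 < ‖z‖ := norm_pos_iff.mpr hz
    by_contra hcon
    push Not at hcon
    have h3 := one_lt_inv₀ h2 |>.mpr hcon
    linarith
  have hinvmem : ∀ x ∈ A, x ≠ 0 → inv x ∈ invSet A := by
    intro x hx hx0
    exact ⟨inv_ne_zero hx0, by rw [inv_inv hx0]; exact hx⟩
  have h0A : (0 : H) ∈ A := hsm 0 (by simp)
  have hGne : (invSet A).Nonempty := by
    have hpos : 0 < ‖e‖ := norm_pos_iff.mpr he
    refine ⟨inv ((1 / (2 * ‖e‖)) • e), hinvmem _ (hsm _ ?_) ?_⟩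
    · rw [norm_smul, Real.norm_eq_abs, abs_of_pos (by positivity)]
      have : 1 / (2 * ‖e‖) * ‖e‖ = 1 / 2 := by field_simp
      rw [this]
      norm_num
    · exact smul_ne_zero (by positivity) he
  set d : ℝ := Metric.infDist y (invSet A) with hd
  have hd0 : 0 ≤ d := Metric.infDist_nonneg
  have hdle : ∀ z ∈ invSet A, d ≤ dist y z := fun z hz => Metric.infDist_le_dist_of_mem hz
  set κ : ℝ := ‖y‖ ^ 2 - d ^ 2 with hκ
  have hyκ : κ ≠ 0 ∨ y ≠ 0 := by
    by_contra hcon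
    push Not at hcon
    obtain ⟨h1, h2⟩ := hcon
    rw [hκ, h2, norm_zero] at h1
    have h3 : d = 0 := by
      have : d ^ 2 = 0 := by linarith
      exact (pow_eq_zero_iff (n := 2) (by norm_num)).mp this
    obtain ⟨z, hz, hlt⟩ := (Metric.infDist_lt_iff hGne).mp
      (show Metric.infDist y (invSet A) < 1 by rw [← hd, h3]; norm_num)
    have h4 := hGnorm z hz
    rw [h2, dist_zero_left] at hlt
    linarith
  obtain ⟨x₀, hx₀, hmin, huniq⟩ := unique_min hcl hst ⟨0, h0A⟩ hbd hfar y κ hyκ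
  -- the minimum is zero
  have hident : ∀ z : H, z ≠ 0 → dist y z ^ 2 - d ^ 2 = ‖z‖ ^ 2 *
      (1 - 2 * inner ℝ (inv z) y + κ * ‖inv z‖ ^ 2) := fun z hz => inv_identity hz y d
  have hnonneg : ∀ x ∈ A, 0 ≤ 1 - 2 * inner ℝ x y + κ * ‖x‖ ^ 2 := by
    intro x hx
    by_cases hx0 : x = 0
    · rw [hx0, inner_zero_left, norm_zero]
      norm_num
    · have h1 := hident _ (inv_ne_zero hx0)
      rw [inv_inv hx0] at h1
      have h2 := pow_le_pow_left₀ hd0 (hdle _ (hinvmem x hx hx0)) 2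
      have h3 : 0 < ‖inv x‖ ^ 2 := by
        have := norm_pos_iff.mpr (inv_ne_zero hx0)
        positivity
      have h4 : 0 ≤ ‖inv x‖ ^ 2 * (1 - 2 * inner ℝ x y + κ * ‖x‖ ^ 2) := by
        rw [← h1]; linarith
      exact nonneg_of_mul_nonneg_right h4 h3
  have hzero : 1 - 2 * inner ℝ x₀ y + κ * ‖x₀‖ ^ 2 = 0 := by
    apply le_antisymm _ (hnonneg x₀ hx₀)
    by_contra hcon
    push Not at hcon
    set ε : ℝ := 1 - 2 * inner ℝ x₀ y + κ * ‖x₀‖ ^ 2 with hε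
    have hsq : d < Real.sqrt (d ^ 2 + ε) := by
      rw [Real.lt_sqrt hd0]
      linarith
    obtain ⟨z, hz, hlt⟩ := (Metric.infDist_lt_iff hGne).mp
      (show Metric.infDist y (invSet A) < Real.sqrt (d ^ 2 + ε) from hsq)
    have h1 := hident z hz.1
    have h2 := hmin _ hz.2
    have h3 := hGnorm z hz
    have h4 : 1 ≤ ‖z‖ ^ 2 := by nlinarith
    have h5 : ε ≤ ‖z‖ ^ 2 * (1 - 2 * inner ℝ (inv z) y + κ * ‖inv z‖ ^ 2) := by
      have h6 : 0 ≤ (‖z‖ ^ 2 - 1) * (1 - 2 * inner ℝ (inv z) y + κ * ‖inv z‖ ^ 2) :=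
        mul_nonneg (by linarith) (hcon.le.trans h2)
      linarith
    have h7 : d ^ 2 + ε ≤ dist y z ^ 2 := by linarith
    have h8 : Real.sqrt (d ^ 2 + ε) ≤ dist y z := by
      rw [Real.sqrt_le_left dist_nonneg]
      exact h7
    linarith
  have hx₀0 : x₀ ≠ 0 := by
    rintro h
    rw [h, inner_zero_left, norm_zero] at hzero
    norm_num at hzero
  have hg := hinvmem x₀ hx₀ hx₀0
  have hgd : dist y (inv x₀) = d := by
    have h1 := hident _ (inv_ne_zero hx₀0)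
    rw [inv_inv hx₀0, hzero, mul_zero] at h1
    have h2 : dist y (inv x₀) ^ 2 = d ^ 2 := by linarith
    exact le_antisymm (le_of_sq_le_sq h2.le hd0) (hdle _ hg)
  refine ⟨inv x₀, ⟨hg, ?_⟩, ?_⟩
  · intro h hh
    rw [hgd]
    exact hdle h hh
  · rintro g' ⟨hg', hmin'⟩
    have h1 : dist y g' = d := le_antisymm ((hmin' _ hg).trans hgd.le) (hdle _ hg')
    have h2 := hident g' hg'.1
    rw [h1, sub_self] at h2
    have h3 : 0 < ‖g'‖ ^ 2 := by
      have := norm_pos_iff.mpr hg'.1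
      positivity
    have h4 : 1 - 2 * inner ℝ (inv g') y + κ * ‖inv g'‖ ^ 2 = 0 := by
      rcases mul_eq_zero.mp h2.symm with h | h
      · exact absurd h h3.ne'
      · exact h
    have h5 := huniq _ hg'.2 (by rw [h4, hzero])
    rw [← h5, inv_inv hg'.1]

lemma invSet_not_convex {A : Set H} (hsm : ∀ x : H, ‖x‖ ^ 2 ≤ 1 / 2 → x ∈ A) {e : H}
    (he : e ≠ 0) : ¬ Convex ℝ (invSet A) := by
  intro hcv
  have hpos : 0 < ‖e‖ := norm_pos_iff.mpr he
  have hmem : ∀ x : H, ‖x‖ = 2 → x ∈ invSet A := by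
    intro x hx
    have hx0 : x ≠ 0 := by
      rw [← norm_ne_zero_iff, hx]; norm_num
    refine ⟨hx0, hsm _ ?_⟩
    rw [norm_inv, hx]
    norm_num
  have h1 : ‖(2 / ‖e‖) • e‖ = 2 := by
    rw [norm_smul, Real.norm_eq_abs, abs_of_pos (by positivity)]
    field_simp
  have h2 : ‖-((2 / ‖e‖) • e)‖ = 2 := by rw [norm_neg, h1]
  have h3 := hcv (hmem _ h1) (hmem _ h2) (by norm_num : (0 : ℝ) ≤ 1 / 2)
    (by norm_num : (0 : ℝ) ≤ 1 / 2) (by norm_num)
  rw [smul_neg, add_neg_cancel] at h3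
  exact h3.1 rfl

end FarPt
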