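import Pool.Agent.H33.FarB.Cheb

/-!
# Hilbert spaces with an orthonormal family of the size of the continuum
-/

open Set Filter Topology Cardinal

namespace FarPt

universe v w

lemma mk_IT : Cardinal.mk IT.{0} ≤ Cardinal.continuum.{0} := by
  have h1 : Cardinal.mk IT.{0} = Cardinal.aleph 1 := by
    rw [Cardinal.mk_toType, Ordinal.card_omega]
  rw [h1]
  exact Cardinal.aleph_one_le_continuum

lemma mk_XT : Cardinal.mk XT.{0} ≤ Cardinal.continuum.{0} := by
  have h1 : Cardinal.mk YT.{0} ≤ Cardinal.continuum.{0} := by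
    rw [Cardinal.mk_sum, Cardinal.lift_id, Cardinal.lift_id, Cardinal.mk_uLift, Cardinal.lift_id,
      Cardinal.mk_real]
    calc _ ≤ Cardinal.continuum.{0} + Cardinal.continuum.{0} := by gcongr; exact mk_IT
      _ = Cardinal.continuum.{0} := Cardinal.continuum_add_self
  have h2 : Cardinal.mk XT.{0} = Cardinal.mk YT.{0} ^ Cardinal.aleph0.{0} := by
    rw [← Cardinal.mk_nat, Cardinal.power_def]
  rw [h2]
  calc _ ≤ Cardinal.continuum.{0} ^ Cardinal.aleph0.{0} := Cardinal.power_le_power_right h1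
    _ = Cardinal.continuum.{0} := Cardinal.continuum_power_aleph0

lemma exists_embedding : Nonempty ((IT.{0} × XT.{0}) ↪ ℝ) := by
  rw [← Cardinal.le_def, Cardinal.mk_real, Cardinal.mk_prod, Cardinal.lift_id, Cardinal.lift_id]
  calc _ ≤ Cardinal.continuum.{0} * Cardinal.continuum.{0} := mul_le_mul' mk_IT mk_XT
    _ = Cardinal.continuum.{0} := Cardinal.continuum_mul_self

section real

variable {H : Type v} [NormedAddCommGroup H] [InnerProductSpace ℝ H] [CompleteSpace H]

/-- the coisometry of an orthonormal family -/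
noncomputable def coisoOf {ι : Type w} {u : ι → H} (hu : Orthonormal ℝ u) :
    Coiso H (lp (fun _ : ι => ℝ) 2) where
  S := (ContinuousLinearMap.adjoint hu.orthogonalFamily.linearIsometry.toContinuousLinearMap :
    H →L[ℝ] lp (fun _ : ι => ℝ) 2)
  U := hu.orthogonalFamily.linearIsometry.toLinearMap
  SU := by
    intro x
    apply ext_inner_right ℝ
    intro y
    show inner ℝ ((ContinuousLinearMap.adjoint
      hu.orthogonalFamily.linearIsometry.toContinuousLinearMap)
      (hu.orthogonalFamily.linearIsometry x)) y = inner ℝ x y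
    rw [ContinuousLinearMap.adjoint_inner_left]
    exact hu.orthogonalFamily.linearIsometry.inner_map_map x y
  adj := by
    intro h x
    show inner ℝ ((ContinuousLinearMap.adjoint
      hu.orthogonalFamily.linearIsometry.toContinuousLinearMap) h) x = _
    rw [ContinuousLinearMap.adjoint_inner_left]
    rfl

/-- the body in a real Hilbert space of dimension at least the continuum -/
theorem real_body {u : ℝ → H} (hu : Orthonormal ℝ u) : ∃ A : Set H, IsClosed A ∧
    (∀ x ∈ A, ‖x‖ ≤ 1) ∧ (∀ x : H, ‖x‖ ^ 2 ≤ 1 / 2 → x ∈ A) ∧ StrictConvex ℝ A ∧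
    ∀ y : H, ∃! a : H, a ∈ A ∧ ∀ b ∈ A, dist y b ≤ dist y a := by
  obtain ⟨ι⟩ := exists_embedding
  have hu' : Orthonormal ℝ (u ∘ ι) := hu.comp ι ι.injective
  refine ⟨body (lpCoord (IT.{0} × XT.{0})) ptT labT (coisoOf hu'), body_closed,
    fun x hx => body_norm hx, fun x hx => body_small hx, body_strict, ?_⟩
  intro y
  exact body_farthest ptT_labT hcof_IT y

end real

section rclike

variable {𝕜 : Type w} [RCLike 𝕜] {H : Type v} [NormedAddCommGroup H] [InnerProductSpace 𝕜 H]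

/-- orthonormal families stay orthonormal over the reals -/
lemma orthonormal_real {u : ℝ → H} (hu : Orthonormal 𝕜 u) :
    @Orthonormal ℝ H _ _ (InnerProductSpace.rclikeToReal 𝕜 H) ℝ u := by
  letI : InnerProductSpace ℝ H := InnerProductSpace.rclikeToReal 𝕜 H
  refine ⟨hu.1, ?_⟩
  intro i j hij
  have h1 : inner 𝕜 (u i) (u j) = 0 := hu.2 hij
  show RCLike.re (inner 𝕜 (u i) (u j)) = 0
  rw [h1, map_zero]

/-- the body in a Hilbert space over the reals or the complex numbers -/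
theorem rclike_body [CompleteSpace H] {u : ℝ → H} (hu : Orthonormal 𝕜 u) : ∃ A : Set H,
    IsClosed A ∧ (∀ x ∈ A, ‖x‖ ≤ 1) ∧ (∀ x : H, ‖x‖ ^ 2 ≤ 1 / 2 → x ∈ A) ∧
    (∀ x ∈ A, ∀ y ∈ A, x ≠ y → ∀ a b : ℝ, 0 < a → 0 < b → a + b = 1 →
      (algebraMap ℝ 𝕜 a) • x + (algebraMap ℝ 𝕜 b) • y ∈ interior A) ∧
    (∀ y : H, ∃! a : H, a ∈ A ∧ ∀ b ∈ A, dist y b ≤ dist y a) := by
  letI : InnerProductSpace ℝ H := InnerProductSpace.rclikeToReal 𝕜 H
  obtain ⟨A, h1, h2, h3, h4, h5⟩ := real_body (orthonormal_real hu)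
  refine ⟨A, h1, h2, h3, ?_, h5⟩
  intro x hx y hy hxy a b ha hb hab
  exact h4 hx hy hxy ha hb hab

/-- a nonconvex Chebyshev set with bounded complement -/
theorem rclike_cheb [CompleteSpace H] {u : ℝ → H} (hu : Orthonormal 𝕜 u) : ∃ G : Set H,
    (∀ x : H, 2 ≤ ‖x‖ → x ∈ G) ∧ (0 : H) ∉ G ∧
    (∀ y : H, ∃! g : H, g ∈ G ∧ ∀ h ∈ G, dist y g ≤ dist y h) := by
  letI : InnerProductSpace ℝ H := InnerProductSpace.rclikeToReal 𝕜 H
  have hu' := orthonormal_real hu
  obtain ⟨A, h1, h2, h3, h4, h5⟩ := real_body hu'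
  refine ⟨invSet A, ?_, fun h => h.1 rfl, ?_⟩
  · intro x hx
    have hx0 : x ≠ 0 := by
      rw [← norm_ne_zero_iff]
      linarith
    refine ⟨hx0, h3 _ ?_⟩
    rw [norm_inv]
    have h6 : ‖x‖⁻¹ ≤ 2⁻¹ := inv_anti₀ (by norm_num) hx
    have h7 : 0 ≤ ‖x‖⁻¹ := by positivity
    nlinarith
  · intro y
    exact invSet_chebyshev h1 h4 h2 h3 h5 (hu'.ne_zero 0) y

end rclike

end FarPt
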